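import Mathlib

set_option autoImplicit false
open Filter Topology MeasureTheory Set Metric Complex
open scoped ContDiff

namespace Pool.Agent.H.MP_ed80cb_an

variable {U : Set ℂ} {u G X : ℂ → ℝ}

lemma ev0 {z : ℂ} (hz : z ∉ tsupport u) : (fun z => u z * G z) =ᶠ[𝓝 z] fun _ => 0 := by
  filter_upwards [notMem_tsupport_iff_eventuallyEq.1 hz] with y hy
  simp [hy]

lemma cd_mul {k : WithTop ℕ∞} (hU : IsOpen U) (hu : ContDiff ℝ k u) (hs : tsupport u ⊆ U)
    (hG : ContDiffOn ℝ k G U) : ContDiff ℝ k fun z => u z * G z := by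
  rw [contDiff_iff_contDiffAt]
  intro z
  by_cases hz : z ∈ tsupport u
  · exact hu.contDiffAt.mul (hG.contDiffAt (hU.mem_nhds (hs hz)))
  · exact contDiffAt_const.congr_of_eventuallyEq (ev0 hz)

lemma c_mul (hU : IsOpen U) (hu : Continuous u) (hs : tsupport u ⊆ U)
    (hG : ContinuousOn G U) : Continuous fun z => u z * G z := by
  rw [← contDiff_zero (𝕜 := ℝ)] at hu ⊢
  exact cd_mul hU hu hs (contDiffOn_zero.2 hG)

lemma i_mul (hU : IsOpen U) (hu : Continuous u) (hc : HasCompactSupport u) (hs : tsupport u ⊆ U)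
    (hG : ContinuousOn G U) : Integrable fun z => u z * G z :=
  (c_mul hU hu hs hG).integrable_of_hasCompactSupport hc.mul_right

lemma cfd (hu : ContDiff ℝ 1 u) (e : ℂ) : Continuous fun z => fderiv ℝ u z e :=
  (hu.continuous_fderiv (by simp)).clm_apply continuous_const

lemma div0 (hu : ContDiff ℝ 1 u) (hc : HasCompactSupport u) (e : ℂ) :
    ∫ z, fderiv ℝ u z e = 0 := by
  have := integral_mul_fderiv_eq_neg_fderiv_mul_of_integrable (μ := volume) (f := fun _ : ℂ => (1 : ℝ))
    (g := u) (v := e) (by simp)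
    (by simpa using (cfd hu e).integrable_of_hasCompactSupport (hc.fderiv_apply ℝ e))
    (by simpa using hu.continuous.integrable_of_hasCompactSupport hc)
    (fun _ _ => differentiableAt_const _) (fun x _ => hu.differentiable (by simp) x)
  simpa using this

lemma fd0 {z : ℂ} (hz : z ∉ tsupport u) : fderiv ℝ u z = 0 :=
  image_eq_zero_of_notMem_tsupport fun h => hz (tsupport_fderiv_subset ℝ h)

lemma cdX (hU : IsOpen U) (hX : ContDiffOn ℝ 1 X U) (e : ℂ) :
    ContinuousOn (fun z => fderiv ℝ X z e) U :=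
  (hX.continuousOn_fderiv_of_isOpen hU le_rfl).clm_apply continuousOn_const

lemma i_sq (hu : ContDiff ℝ 1 u) (hc : HasCompactSupport u) (e : ℂ) :
    Integrable fun z => fderiv ℝ u z e ^ 2 := by
  simp only [sq]
  exact ((cfd hu e).mul (cfd hu e)).integrable_of_hasCompactSupport
    (hc.fderiv_apply ℝ e).mul_right

lemma i_w (hU : IsOpen U) (hu : Continuous u) (hc : HasCompactSupport u) (hs : tsupport u ⊆ U)
    (hG : ContinuousOn G U) : Integrable fun z => G z * u z ^ 2 := by
  refine (i_mul hU hu hc hs (hu.continuousOn.mul hG)).congr (ae_of_all _ fun z => ?_)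
  simp only [Pi.mul_apply]; ring

lemma ident (hU : IsOpen U) (hu : ContDiff ℝ 1 u) (hc : HasCompactSupport u)
    (hs : tsupport u ⊆ U) (hX : ContDiffOn ℝ 1 X U) (e : ℂ) :
    Integrable (fun z => (fderiv ℝ u z e - u z * X z) ^ 2) ∧
    ∫ z, (fderiv ℝ u z e - u z * X z) ^ 2 =
      (∫ z, fderiv ℝ u z e ^ 2) + ∫ z, (X z ^ 2 + fderiv ℝ X z e) * u z ^ 2 := by
  have h1 : ContDiff ℝ 1 fun z => u z * (u z * X z) := hu.mul (cd_mul hU hu hs hX)
  have h2 : HasCompactSupport fun z => u z * (u z * X z) := hc.mul_right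
  have h3 : ∀ z, (fderiv ℝ u z e - u z * X z) ^ 2 =
      fderiv ℝ u z e ^ 2 + (X z ^ 2 + fderiv ℝ X z e) * u z ^ 2 -
        fderiv ℝ (fun z => u z * (u z * X z)) z e := by
    intro z
    by_cases hz : z ∈ tsupport u
    · have a := (hu.differentiable (by simp) z).hasFDerivAt
      have b := ((hX.contDiffAt (hU.mem_nhds (hs hz))).differentiableAt (by simp)).hasFDerivAt
      have := (a.mul (a.mul b)).fderiv
      rw [show (fun z => u z * (u z * X z)) = u * (u * X) from rfl, this]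
      simp
      ring
    · rw [(ev0 hz).fderiv_eq, fd0 hz, image_eq_zero_of_notMem_tsupport hz]
      simp
  have i1 := i_sq hu hc e
  have i2 : Integrable fun z => (X z ^ 2 + fderiv ℝ X z e) * u z ^ 2 :=
    i_w hU hu.continuous hc hs ((hX.continuousOn.pow 2).add (cdX hU hX e))
  have i3 := (cfd h1 e).integrable_of_hasCompactSupport (μ := volume) (h2.fderiv_apply ℝ e)
  simp only [h3]
  refine ⟨(i1.add i2).sub i3, ?_⟩
  rw [integral_sub (i1.fun_add i2) i3, integral_add i1 i2, div0 h1 h2, sub_zero]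

lemma nsq (L : ℂ →L[ℝ] ℝ) : ‖L‖ ^ 2 = L 1 ^ 2 + L I ^ 2 := by
  rw [Complex.orthonormalBasisOneI.norm_dual]; simp

noncomputable def pot (X Y : ℂ → ℝ) (z : ℂ) : ℝ :=
  -(X z ^ 2 + fderiv ℝ X z 1) - (Y z ^ 2 + fderiv ℝ Y z I) - 1

lemma pot_c {Y : ℂ → ℝ} (hU : IsOpen U) (hX : ContDiffOn ℝ 1 X U) (hY : ContDiffOn ℝ 1 Y U) :
    ContinuousOn (pot X Y) U :=
  ((((hX.continuousOn.pow 2).add (cdX hU hX 1)).neg).sub
    ((hY.continuousOn.pow 2).add (cdX hU hY I))).sub continuousOn_const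

lemma rep {Y : ℂ → ℝ} (hU : IsOpen U) (hu : ContDiff ℝ 1 u) (hc : HasCompactSupport u)
    (hs : tsupport u ⊆ U) (hX : ContDiffOn ℝ 1 X U) (hY : ContDiffOn ℝ 1 Y U) :
    (∫ z in U, ‖fderiv ℝ u z‖ ^ 2) - ∫ z in U, pot X Y z * u z ^ 2 =
      (∫ z, ((fderiv ℝ u z 1 - u z * X z) ^ 2 + (fderiv ℝ u z I - u z * Y z) ^ 2)) +
        ∫ z, u z ^ 2 := by
  rw [setIntegral_eq_integral_of_forall_compl_eq_zero fun z hz => by
      rw [fd0 fun h => hz (hs h)]; simp,
    setIntegral_eq_integral_of_forall_compl_eq_zero fun z hz => by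
      rw [image_eq_zero_of_notMem_tsupport fun h => hz (hs h)]; simp]
  obtain ⟨a1, a2⟩ := ident hU hu hc hs hX 1
  obtain ⟨b1, b2⟩ := ident hU hu hc hs hY I
  have i1 : Integrable fun z => (X z ^ 2 + fderiv ℝ X z 1) * u z ^ 2 :=
    i_w hU hu.continuous hc hs ((hX.continuousOn.pow 2).add (cdX hU hX 1))
  have i2 : Integrable fun z => (Y z ^ 2 + fderiv ℝ Y z I) * u z ^ 2 :=
    i_w hU hu.continuous hc hs ((hY.continuousOn.pow 2).add (cdX hU hY I))
  have i4 : Integrable fun z => -((X z ^ 2 + fderiv ℝ X z 1) * u z ^ 2) := i1.neg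
  have i5 : Integrable fun z => -((X z ^ 2 + fderiv ℝ X z 1) * u z ^ 2) -
    (Y z ^ 2 + fderiv ℝ Y z I) * u z ^ 2 := i4.sub i2
  have i3 : Integrable fun z => u z ^ 2 := by
    simpa using i_w (G := fun _ => 1) hU hu.continuous hc hs continuousOn_const
  have e : ∀ z, pot X Y z * u z ^ 2 = -((X z ^ 2 + fderiv ℝ X z 1) * u z ^ 2) -
      (Y z ^ 2 + fderiv ℝ Y z I) * u z ^ 2 - u z ^ 2 := fun z => by rw [pot]; ring
  simp only [nsq, e]
  rw [integral_add a1 b1, a2, b2, integral_add (i_sq hu hc 1) (i_sq hu hc I),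
    integral_sub i5 i3, integral_sub i4 i2, integral_neg]
  ring

lemma kato {V : ℂ → ℝ} {K : Set ℂ} (hK : IsCompact K) (hV : ContinuousOn V K) :
    Tendsto (fun r : ℝ => ⨆ x : ℂ, ∫⁻ y in K ∩ ball x r,
      ENNReal.ofReal (Real.log (1 / ‖x - y‖) * |V y|)) (𝓝[>] 0) (𝓝 0) := by
  obtain ⟨M, hM⟩ := hK.exists_bound_of_continuousOn hV
  have hi : IntegrableOn (fun y : ℂ => |M| * ‖y‖⁻¹) (ball 0 1) := by
    refine integrableOn_ball_of_norm_le_rpow (C := |M|) (α := 1) (by simp) (by simp)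
      (ae_of_all _ fun y => by simp [Real.rpow_neg_one]) ?_
    exact (measurable_const.mul measurable_norm.inv).aestronglyMeasurable
  have h1 : ∫⁻ y in ball (0 : ℂ) 1, ENNReal.ofReal (|M| * ‖y‖⁻¹) ≠ ⊤ := hi.lintegral_lt_top.ne
  have h2 : Tendsto ((volume.restrict (ball (0 : ℂ) 1)) ∘ fun r : ℝ => ball (0 : ℂ) r) (𝓝[>] 0)
      (𝓝 0) := by
    have : Tendsto (fun r : ℝ => ENNReal.ofReal r ^ 2 * NNReal.pi) (𝓝[>] 0) (𝓝 0) := by
      have c : Continuous fun r : ℝ => ENNReal.ofReal r ^ 2 * NNReal.pi :=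
        (ENNReal.continuous_mul_const (by simp)).comp
          ((ENNReal.continuous_pow 2).comp ENNReal.continuous_ofReal)
      simpa using (c.tendsto 0).mono_left nhdsWithin_le_nhds
    refine tendsto_of_tendsto_of_tendsto_of_le_of_le tendsto_const_nhds this
      (fun _ => zero_le) fun r => ?_
    simp only [Function.comp]
    rw [← Complex.volume_ball 0 r]
    exact Measure.restrict_apply_le _ _
  have h3 := tendsto_setLIntegral_zero h1 h2
  refine tendsto_of_tendsto_of_tendsto_of_le_of_le' tendsto_const_nhds h3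
    (Eventually.of_forall fun _ => zero_le) ?_
  filter_upwards [Ioo_mem_nhdsGT (zero_lt_one' ℝ)] with r hr
  refine iSup_le fun x => ?_
  rw [Measure.restrict_restrict measurableSet_ball, inter_eq_left.2 (ball_subset_ball hr.2.le)]
  calc _ ≤ ∫⁻ y in K ∩ ball x r, ENNReal.ofReal (|M| * ‖x - y‖⁻¹) := by
        refine setLIntegral_mono' (hK.measurableSet.inter measurableSet_ball) fun y hy => ?_
        refine ENNReal.ofReal_le_ofReal ?_
        have a : Real.log (1 / ‖x - y‖) ≤ ‖x - y‖⁻¹ := by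
          rw [one_div]; exact Real.log_le_self (by positivity)
        have b : |V y| ≤ |M| := (hM y hy.1).trans (le_abs_self M)
        calc _ ≤ ‖x - y‖⁻¹ * |V y| := by gcongr
          _ ≤ ‖x - y‖⁻¹ * |M| := by gcongr
          _ = _ := mul_comm _ _
    _ ≤ ∫⁻ y in ball x r, ENNReal.ofReal (|M| * ‖x - y‖⁻¹) :=
        lintegral_mono_set inter_subset_right
    _ = _ := by
        have hm := (Measure.measurePreserving_sub_left (volume : Measure ℂ) x)
        have := hm.setLIntegral_comp_preimage (s := ball 0 r) measurableSet_ball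
          (f := fun y => ENNReal.ofReal (|M| * ‖y‖⁻¹))
          (measurable_const.mul measurable_norm.inv).ennreal_ofReal
        rw [← this]
        congr 2
        ext y
        simp [dist_eq_norm, norm_sub_rev]

lemma coer (hu : Continuous u) (hc : HasCompactSupport u) :
    1 * (∫ z in ball (0 : ℂ) (1 / 2), u z) ^ 2 ≤ ∫ z, u z ^ 2 := by
  have i3 : Integrable fun z => u z ^ 2 := by
    simp only [sq]; exact (hu.mul hu).integrable_of_hasCompactSupport hc.mul_right
  have i1 : Integrable u := hu.integrable_of_hasCompactSupport hc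
  set a := ∫ z in ball (0 : ℂ) (1 / 2), u z with ha
  have hv : volume.real (ball (0 : ℂ) (1 / 2)) ≤ 1 := by
    rw [measureReal_def, Complex.volume_ball]
    simp
    nlinarith [Real.pi_le_four]
  have h1 : ∫ z in ball (0 : ℂ) (1 / 2), (2 * a * u z - a ^ 2) ≤
      ∫ z in ball (0 : ℂ) (1 / 2), u z ^ 2 := by
    refine integral_mono ((i1.const_mul _).integrableOn.sub (integrableOn_const
      measure_ball_lt_top.ne)) i3.integrableOn fun z => ?_
    simp only; nlinarith [sq_nonneg (u z - a)]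
  rw [integral_sub (i1.const_mul _).integrableOn (integrableOn_const measure_ball_lt_top.ne),
    integral_const_mul, setIntegral_const, ← ha, smul_eq_mul] at h1
  have h2 : ∫ z in ball (0 : ℂ) (1 / 2), u z ^ 2 ≤ ∫ z, u z ^ 2 :=
    setIntegral_le_integral i3 (ae_of_all _ fun z => sq_nonneg _)
  nlinarith [sq_nonneg a]

end Pool.Agent.H.MP_ed80cb_an
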