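import Pool.Agent.H.MP_ed80cb_an.A

set_option autoImplicit false
open Filter Topology MeasureTheory Set Metric Complex
open scoped ContDiff

namespace Pool.Agent.H.MP_ed80cb_an

noncomputable def h (z : ℂ) : ℝ := 1 + (z.im + 1) ^ 7 / ((z.im + 1) ^ 8 + z.re ^ 2)

lemma eta_pos {z : ℂ} (hz : z ∈ ball (0 : ℂ) 1) : 0 < z.im + 1 := by
  have := (abs_lt.1 ((Complex.abs_im_le_norm z).trans_lt (mem_ball_zero_iff.1 hz))).1
  linarith

lemma h_pos {z : ℂ} (hz : z ∈ ball (0 : ℂ) 1) : 0 < h z := by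
  have := eta_pos hz
  unfold h; positivity

lemma h_cd : ContDiffOn ℝ ∞ h (ball 0 1) := by
  have a : ContDiff ℝ ∞ fun z : ℂ => z.im := Complex.imCLM.contDiff
  have b : ContDiff ℝ ∞ fun z : ℂ => z.re := Complex.reCLM.contDiff
  refine contDiffOn_const.add (((a.add contDiff_const).pow 7).contDiffOn.div
    (((a.add contDiff_const).pow 8).add (b.pow 2)).contDiffOn fun z hz => ?_)
  have := eta_pos hz
  positivity

noncomputable def XX (e : ℂ) (z : ℂ) : ℝ := fderiv ℝ h z e / h z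

lemma XX_cd (e : ℂ) : ContDiffOn ℝ 1 (XX e) (ball 0 1) :=
  ((h_cd.fderiv_of_isOpen isOpen_ball (m := 1) (by norm_cast)).clm_apply
    contDiffOn_const).div (h_cd.of_le (by exact_mod_cast le_top)) fun _ hz => (h_pos hz).ne'

noncomputable def bb : ContDiffBump (0 : ℂ) := ⟨1 / 4, 1 / 2, by norm_num, by norm_num⟩

lemma bb_M : ∃ M : ℝ, 0 ≤ M ∧ ∀ z, ‖fderiv ℝ bb z‖ ≤ M := by
  obtain ⟨M, hM⟩ := ((bb.contDiff (n := 1)).continuous_fderiv (by simp)).bounded_above_of_compact_support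
    (bb.hasCompactSupport.fderiv ℝ)
  exact ⟨M, (norm_nonneg _).trans (hM 0), hM⟩

noncomputable def pt (t : ℝ) : ℂ := ((t - 1 : ℝ) : ℂ) * I

noncomputable def vv (c t : ℝ) (z : ℂ) : ℝ := c * bb (t⁻¹ • (z - pt t))

variable {c t : ℝ}

lemma vv_cd : ContDiff ℝ ∞ (vv c t) :=
  contDiff_const.mul (bb.contDiff.comp ((contDiff_id.sub contDiff_const).const_smul _))

lemma vv_supp (ht : 0 < t) : tsupport (vv c t) ⊆ closedBall (pt t) (t / 2) := by
  refine closure_minimal (fun z hz => ?_) isClosed_closedBall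
  by_contra h
  apply hz
  rw [vv, bb.zero_of_le_dist, mul_zero]
  rw [mem_closedBall, dist_eq_norm, not_le] at h
  rw [dist_zero_right, norm_smul, norm_inv, Real.norm_of_nonneg ht.le, ← div_eq_inv_mul,
    le_div_iff₀ ht]
  show 1 / 2 * t ≤ _
  linarith

lemma vv_one (ht : 0 < t) {z : ℂ} (hz : ‖z - pt t‖ ≤ t / 4) : vv c t z = c := by
  rw [vv, bb.one_of_mem_closedBall, mul_one]
  rw [mem_closedBall, dist_zero_right, norm_smul, norm_inv, Real.norm_of_nonneg ht.le,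
    ← div_eq_inv_mul, div_le_iff₀ ht]
  show _ ≤ 1 / 4 * t
  linarith

lemma vv_sq (z : ℂ) : vv c t z ^ 2 ≤ c ^ 2 := by
  rw [vv, mul_pow]
  exact mul_le_of_le_one_right (sq_nonneg _) (pow_le_one₀ bb.nonneg bb.le_one)

lemma vv_fd {M : ℝ} (hM : ∀ z, ‖fderiv ℝ bb z‖ ≤ M) (z : ℂ) :
    fderiv ℝ (vv c t) z 1 ^ 2 + fderiv ℝ (vv c t) z I ^ 2 ≤ c ^ 2 * t⁻¹ ^ 2 * M ^ 2 := by
  have a := ((bb.contDiff (n := 1)).differentiable (by simp) (t⁻¹ • (z - pt t))).hasFDerivAt
  have b : HasFDerivAt (fun z : ℂ => t⁻¹ • (z - pt t)) (t⁻¹ • ContinuousLinearMap.id ℝ ℂ) z :=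
    HasFDerivAt.fun_const_smul ((hasFDerivAt_id z).sub_const (pt t)) t⁻¹
  have d : HasFDerivAt (vv c t) _ z := (a.comp z b).const_mul c
  have e : ∀ e : ℂ, fderiv ℝ (vv c t) z e = c * t⁻¹ * fderiv ℝ bb (t⁻¹ • (z - pt t)) e := by
    intro e
    rw [d.fderiv]
    simp only [_root_.smul_apply, ContinuousLinearMap.comp_apply,
      ContinuousLinearMap.id_apply, map_smul, smul_eq_mul]
    ring
  have f := nsq (fderiv ℝ bb (t⁻¹ • (z - pt t)))
  have g : ‖fderiv ℝ bb (t⁻¹ • (z - pt t))‖ ^ 2 ≤ M ^ 2 := by gcongr; exact hM _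
  rw [e, e]
  calc _ = c ^ 2 * t⁻¹ ^ 2 * ‖fderiv ℝ bb (t⁻¹ • (z - pt t))‖ ^ 2 := by rw [f]; ring
    _ ≤ _ := by gcongr

lemma sub_ball (ht : 0 < t) (ht1 : t ≤ 1) : closedBall (pt t) (t / 2) ⊆ ball 0 1 := by
  refine closedBall_subset_ball' ?_
  rw [dist_zero_right, pt, norm_mul, Complex.norm_I, Complex.norm_real, Real.norm_eq_abs,
    abs_of_nonpos (by linarith)]
  linarith

def rect (a b s : ℝ) : Set ℂ := {z | z.re ∈ Icc (-a) a ∧ z.im ∈ Icc (s - b) (s + b)}

lemma rect_pre (a b s : ℝ) :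
    rect a b s = measurableEquivRealProd ⁻¹' (Icc (-a) a ×ˢ Icc (s - b) (s + b)) := by
  ext z; simp [rect]; tauto

lemma rect_m (a b s : ℝ) : MeasurableSet (rect a b s) := by
  rw [rect_pre]; exact measurableEquivRealProd.measurable (measurableSet_Icc.prod measurableSet_Icc)

lemma rect_v (a b s : ℝ) :
    volume (rect a b s) = ENNReal.ofReal (2 * a) * ENNReal.ofReal (2 * b) := by
  rw [rect_pre, volume_preserving_equiv_real_prod.measure_preimage
    (measurableSet_Icc.prod measurableSet_Icc).nullMeasurableSet, Measure.volume_eq_prod,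
    Measure.prod_prod, Real.volume_Icc, Real.volume_Icc]
  congr 2 <;> ring

lemma rect_r {a b : ℝ} (ha : 0 ≤ a) (hb : 0 ≤ b) (s : ℝ) :
    volume.real (rect a b s) = 4 * a * b := by
  rw [measureReal_def, rect_v, ENNReal.toReal_mul, ENNReal.toReal_ofReal (by positivity),
    ENNReal.toReal_ofReal (by positivity)]
  ring

lemma rect_i (a b s k : ℝ) : Integrable ((rect a b s).indicator fun _ => k) :=
  (integrableOn_const (by rw [rect_v]; finiteness)).integrable_indicator (rect_m a b s)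

lemma coords {z : ℂ} {r : ℝ} (hz : ‖z - pt t‖ ≤ r) : |z.re| ≤ r ∧ |z.im + 1 - t| ≤ r := by
  have a := (Complex.abs_re_le_norm _).trans hz
  have b := (Complex.abs_im_le_norm _).trans hz
  simp only [pt, sub_re, mul_re, ofReal_re, I_re, ofReal_im, I_im, sub_im, mul_im] at a b
  constructor
  · simpa using a
  · rw [show z.im + 1 - t = z.im - (0 * 0 + (t - 1) * 1) by ring]
    simpa using b

lemma h_bd (ht : 0 < t) (ht1 : t ≤ 1) {z : ℂ} (hz : z ∈ closedBall (pt t) (t / 2)) :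
    h z ^ 2 ≤ (rect (t / 2) (t / 2) (t - 1)).indicator (fun _ => 9) z +
      (rect (4 * t ^ 3) (t / 2) (t - 1)).indicator (fun _ => 9 * t⁻¹ ^ 2) z := by
  obtain ⟨a, b⟩ := coords (mem_closedBall_iff_norm.1 hz)
  have hp := h_pos (sub_ball ht ht1 hz)
  rw [abs_le] at b
  have hI : z.im ∈ Icc (t - 1 - t / 2) (t - 1 + t / 2) := ⟨by linarith, by linarith⟩
  rw [indicator_of_mem (show z ∈ rect (t / 2) (t / 2) (t - 1) from ⟨abs_le.1 a, hI⟩)]
  set y := z.im + 1 with hy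
  have hy0 : 0 < y := by linarith
  by_cases hr : z ∈ rect (4 * t ^ 3) (t / 2) (t - 1)
  · rw [indicator_of_mem hr]
    have h1 : y ^ 7 / (y ^ 8 + z.re ^ 2) ≤ 2 * t⁻¹ := by
      rw [← div_eq_mul_inv, div_le_div_iff₀ (by positivity) ht]
      have : y ^ 7 * t ≤ y ^ 7 * (2 * y) := by gcongr; linarith
      nlinarith [sq_nonneg z.re]
    have h2 : 1 ≤ t⁻¹ := (one_le_inv₀ ht).2 ht1
    have h3 : h z ≤ 3 * t⁻¹ := by rw [h, ← hy]; linarith
    nlinarith
  · rw [indicator_of_notMem hr]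
    have h0 : 4 * t ^ 3 < |z.re| := by
      by_contra hh
      exact hr ⟨abs_le.1 (not_lt.1 hh), hI⟩
    have h4 : y ^ 3 ≤ |z.re| := by
      have : y ^ 3 ≤ (3 / 2 * t) ^ 3 := by gcongr; linarith
      nlinarith [pow_pos ht 3]
    have h5 : (y ^ 3) ^ 2 ≤ z.re ^ 2 := by rw [← sq_abs z.re]; gcongr
    have h1 : y ^ 7 / (y ^ 8 + z.re ^ 2) ≤ 2 := by
      rw [div_le_iff₀ (by positivity)]
      have : y ^ 6 * y ≤ y ^ 6 * 2 := by gcongr; linarith
      nlinarith [pow_pos hy0 8]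
    have h3 : h z ≤ 3 := by rw [h, ← hy]; linarith
    nlinarith

lemma h_low (ht : 0 < t) (ht1 : t ≤ 1) {z : ℂ} (hz : ‖z - pt t‖ ≤ (t / 2) ^ 4) :
    (3 * t)⁻¹ ≤ h z := by
  obtain ⟨a, b⟩ := coords hz
  have h0 : (t / 2) ^ 4 ≤ t / 2 := pow_le_of_le_one (by positivity) (by linarith) (by norm_num)
  rw [abs_le] at b
  set y := z.im + 1 with hy
  have hy0 : 0 < y := by linarith
  have h4 : |z.re| ≤ y ^ 4 := a.trans (by gcongr; linarith)
  have h5 : z.re ^ 2 ≤ (y ^ 4) ^ 2 := by rw [← sq_abs z.re]; gcongr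
  have h1 : (3 * t)⁻¹ ≤ y ^ 7 / (y ^ 8 + z.re ^ 2) := by
    rw [inv_eq_one_div, div_le_div_iff₀ (by positivity) (by positivity)]
    have : y ^ 7 * (2 * y) ≤ y ^ 7 * (3 * t) :=
      mul_le_mul_of_nonneg_left (by linarith) (by positivity)
    nlinarith
  rw [h, ← hy]; linarith

noncomputable def uu (c t : ℝ) (z : ℂ) : ℝ := vv c t z * h z

lemma uu_supp (ht : 0 < t) : tsupport (uu c t) ⊆ closedBall (pt t) (t / 2) :=
  tsupport_mul_subset_left.trans (vv_supp ht)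

lemma uu_cd (ht : 0 < t) (ht1 : t ≤ 1) : ContDiff ℝ ∞ (uu c t) :=
  cd_mul isOpen_ball vv_cd ((vv_supp ht).trans (sub_ball ht ht1)) h_cd

lemma uu_cs (ht : 0 < t) : HasCompactSupport (uu c t) :=
  (isCompact_closedBall _ _).of_isClosed_subset (isClosed_tsupport _) (uu_supp ht)

lemma uu_fd {z : ℂ} (hz : z ∈ ball (0 : ℂ) 1) (e : ℂ) :
    fderiv ℝ (uu c t) z e - uu c t z * XX e z = fderiv ℝ (vv c t) z e * h z := by
  have a := ((vv_cd (c := c) (t := t)).differentiable (by simp) z).hasFDerivAt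
  have b := ((h_cd.contDiffAt (isOpen_ball.mem_nhds hz)).differentiableAt (by simp)).hasFDerivAt
  have d : HasFDerivAt (uu c t) _ z := a.mul b
  have := (h_pos hz).ne'
  rw [d.fderiv, uu, XX]
  simp only [_root_.add_apply, _root_.smul_apply, smul_eq_mul]
  field_simp
  ring

lemma int_le {F : ℂ → ℝ} {k : ℝ} (hk : 0 ≤ k) (ht : 0 < t) (ht1 : t ≤ 1) (h0 : ∀ z, 0 ≤ F z)
    (h1 : ∀ z ∈ closedBall (pt t) (t / 2), F z ≤ k * h z ^ 2)
    (h2 : ∀ z ∉ closedBall (pt t) (t / 2), F z = 0) : ∫ z, F z ≤ k * (81 * t ^ 2) := by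
  have i1 := rect_i (t / 2) (t / 2) (t - 1) 9
  have i2 := rect_i (4 * t ^ 3) (t / 2) (t - 1) (9 * t⁻¹ ^ 2)
  calc ∫ z, F z ≤ ∫ z, k * ((rect (t / 2) (t / 2) (t - 1)).indicator (fun _ => 9) z +
      (rect (4 * t ^ 3) (t / 2) (t - 1)).indicator (fun _ => 9 * t⁻¹ ^ 2) z) := by
        refine integral_mono_of_nonneg (ae_of_all _ h0) ((i1.add i2).const_mul k)
          (ae_of_all _ fun z => ?_)
        by_cases hz : z ∈ closedBall (pt t) (t / 2)
        · exact (h1 z hz).trans (mul_le_mul_of_nonneg_left (h_bd ht ht1 hz) hk)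
        · simp only [h2 z hz]
          exact mul_nonneg hk (add_nonneg (indicator_nonneg (fun _ _ => by norm_num) _)
            (indicator_nonneg (fun _ _ => by positivity) _))
    _ = _ := by
        rw [integral_const_mul, integral_add i1 i2, integral_indicator_const _ (rect_m _ _ _),
          integral_indicator_const _ (rect_m _ _ _), rect_r (by positivity) (by positivity),
          rect_r (by positivity) (by positivity)]
        simp only [smul_eq_mul]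
        field_simp
        ring

lemma Q_le {M : ℝ} (hM : ∀ z, ‖fderiv ℝ bb z‖ ≤ M) (ht : 0 < t) (ht1 : t ≤ 1) :
    (∫ z in ball 0 1, ‖fderiv ℝ (uu c t) z‖ ^ 2) -
      ∫ z in ball 0 1, pot (XX 1) (XX I) z * uu c t z ^ 2 ≤ 81 * c ^ 2 * (M ^ 2 + 1) := by
  have hs := (uu_supp (c := c) ht)
  rw [rep isOpen_ball ((uu_cd ht ht1).of_le (by exact_mod_cast le_top)) (uu_cs ht)
    (hs.trans (sub_ball ht ht1)) (XX_cd 1) (XX_cd I)]
  have a := int_le (F := fun z => (fderiv ℝ (uu c t) z 1 - uu c t z * XX 1 z) ^ 2 +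
      (fderiv ℝ (uu c t) z I - uu c t z * XX I z) ^ 2) (k := c ^ 2 * t⁻¹ ^ 2 * M ^ 2)
    (by positivity) ht ht1 (fun z => by positivity) (fun z hz => by
      rw [uu_fd (sub_ball ht ht1 hz), uu_fd (sub_ball ht ht1 hz), mul_pow, mul_pow, ← add_mul]
      exact mul_le_mul_of_nonneg_right (vv_fd hM z) (sq_nonneg _)) fun z hz => by
      rw [fd0 fun h => hz (hs h), image_eq_zero_of_notMem_tsupport fun h => hz (hs h)]; simp
  have b := int_le (F := fun z => uu c t z ^ 2) (k := c ^ 2)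
    (by positivity) ht ht1 (fun z => by positivity) (fun z _ => by
      rw [uu, mul_pow]
      exact mul_le_mul_of_nonneg_right (vv_sq z) (sq_nonneg _)) fun z hz => by
      rw [image_eq_zero_of_notMem_tsupport fun h => hz (hs h)]; simp
  have e : c ^ 2 * t⁻¹ ^ 2 * M ^ 2 * (81 * t ^ 2) = 81 * c ^ 2 * M ^ 2 := by field_simp
  have f : t ^ 2 ≤ 1 := pow_le_one₀ ht.le ht1
  nlinarith [sq_nonneg c]

lemma E_ge (hc : 0 < c) (ht : 0 < t) (ht1 : t ≤ 1) :
    c ^ 10 / 12000 * t⁻¹ ≤ ∫ z in ball 0 1, Real.exp (4 * Real.pi * uu c t z ^ 2) := by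
  have hcont : Continuous fun z => Real.exp (4 * Real.pi * uu c t z ^ 2) := by
    have := (uu_cd (c := c) ht ht1).continuous
    fun_prop
  have hi : IntegrableOn (fun z => Real.exp (4 * Real.pi * uu c t z ^ 2)) (ball 0 1) :=
    (hcont.continuousOn.integrableOn_compact (isCompact_closedBall 0 1)).mono_set
      ball_subset_closedBall
  have h0 : (t / 2) ^ 4 ≤ t / 4 := by
    have : t ^ 4 ≤ t := pow_le_of_le_one ht.le ht1 (by norm_num)
    nlinarith
  have hsub : ball (pt t) ((t / 2) ^ 4) ⊆ ball 0 1 :=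
    (ball_subset_closedBall.trans (closedBall_subset_closedBall (by linarith))).trans
      (sub_ball ht ht1)
  refine le_trans ?_ (setIntegral_mono_set hi (ae_of_all _ fun z => (Real.exp_pos _).le)
    hsub.eventuallyLE)
  have h1 := setIntegral_ge_of_const_le_real (μ := volume) (c := (c ^ 2 * t⁻¹ ^ 2) ^ 5 / 120)
    measurableSet_ball measure_ball_lt_top.ne (fun z hz => ?_) (hi.mono_set hsub)
  · refine le_trans ?_ h1
    rw [measureReal_def, Complex.volume_ball]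
    simp only [ENNReal.toReal_mul, ENNReal.toReal_pow, ENNReal.coe_toReal, NNReal.coe_real_pi]
    rw [ENNReal.toReal_ofReal (by positivity)]
    have e : (c ^ 2 * t⁻¹ ^ 2) ^ 5 / 120 * (((t / 2) ^ 4) ^ 2 * Real.pi) =
        c ^ 10 / 12000 * t⁻¹ * (t⁻¹ * (100 * Real.pi / 256)) := by field_simp; ring
    rw [e]
    refine le_mul_of_one_le_right (by positivity) ?_
    have h2 : 1 ≤ t⁻¹ := (one_le_inv₀ ht).2 ht1
    nlinarith [Real.pi_gt_three]
  · have hz' := (mem_ball_iff_norm.1 hz).le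
    have a := h_low ht ht1 hz'
    have b : c * (3 * t)⁻¹ ≤ uu c t z := by
      rw [uu, vv_one ht (hz'.trans h0)]; gcongr
    have d : c ^ 2 * t⁻¹ ^ 2 ≤ 4 * Real.pi * uu c t z ^ 2 := by
      have : (c * (3 * t)⁻¹) ^ 2 ≤ uu c t z ^ 2 := by gcongr
      have e : c ^ 2 * t⁻¹ ^ 2 = 9 * (c * (3 * t)⁻¹) ^ 2 := by field_simp; ring
      nlinarith [Real.pi_gt_three, sq_nonneg (uu c t z)]
    have := Real.pow_div_factorial_le_exp (c ^ 2 * t⁻¹ ^ 2) (by positivity) 5
    norm_num [Nat.factorial] at this ⊢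
    exact this.trans (Real.exp_le_exp.2 (by simpa using d))

end Pool.Agent.H.MP_ed80cb_an
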